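import Pool.Agent.Lib.TGL_h18.IndAt
import Pool.Agent.Lib.TGL_h74.B2
import Pool.Agent.Lib.TG_h3.A0

/-!
# TANK G, TRACK L, row IND: the step of the induction
-/

set_option autoImplicit false

open Polynomial

namespace Pool.Agent.TGL

open Pool.Agent.TAO (OVal VPos Ctx0)
open Pool.Agent.TG (LB KB Proj ProjStmt IsModel Fin')
open Pool.Agent.TGL18

universe u

/-- **The step of the induction of TRACK L.** -/
theorem glo_step {k : Type u} [Field k] [IsAlgClosed k] {p : ℕ} [Fact p.Prime] [CharP k p]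
    {m d : ℕ} (hd : d < p) (hG : GLO k m) (hP : ProjStmt k m d) : GLO k (m + 1) := by
  classical
  intro K _ _ hK htr Z hZ
  obtain ⟨A₀, hA1, hA2, hA3, hA4⟩ := TGD.exists_A0 hK Z
  obtain ⟨b, z, f, C, hp⟩ := hP K hK htr A₀ hA1 hA2 hA3
  obtain ⟨u, hu0, hw0, -, -, hu⟩ := hp.exists_w hK
  have hch : CharP (LB k b) p := charP_of_injective_algebraMap (algebraMap k (LB k b)).injective p
  obtain ⟨G, Zm, hZm, hGZ⟩ := exists_SG (F := LB k b) p hp.fsep
  have hbb : ∀ i, (⟨b i, b_mem b i⟩ : LB k b) ≠ 0 := fun i h0 =>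
    hp.ind.ne_zero i (congrArg Subtype.val h0)
  -- the labels of the lower level
  obtain ⟨P0, S0, hP0, hfin0, hS0, hv⟩ := hG (LB k b) (TGL2.LB_fg b) (TGL2.trdeg_LB b hp.ind)
    (insert u (Zm ∪ Finset.univ.image fun i => (⟨b i, b_mem b i⟩ : LB k b))) (by
      intro x hx
      rcases Finset.mem_insert.1 hx with rfl | hx
      · exact hu0
      rcases Finset.mem_union.1 hx with hx | hx
      · exact hZm x hx
      · obtain ⟨i, -, rfl⟩ := Finset.mem_image.1 hx
        exact hbb i)
  have hGne : G ≠ 0 := by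
    rintro rfl
    have hfinS : (Sgr (Rts f (AlgebraicClosure (LB k b))) :
        Set (AlgebraicClosure (LB k b))).Finite := by
      have : CharP (AlgebraicClosure (LB k b)) p := charP_of_injective_algebraMap
        (algebraMap (LB k b) (AlgebraicClosure (LB k b))).injective p
      exact Sgr_finite p (Rts_finite hp.fsep.ne_zero)
    have h1 := (hGZ (AlgebraicClosure (LB k b)) hfinS.toFinset hfinS.coe_toFinset).1
    rw [Polynomial.map_zero] at h1
    refine (Polynomial.Monic.ne_zero ?_ : FS hfinS.toFinset ≠ 0) h1.symm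
    exact monic_prod_of_monic _ _ fun s _ => monic_X_sub_C s
  have hGz : aeval z G ≠ 0 := fun h0 => hGne (transcendental_iff.1 hp.tr G h0)
  have hfinK := hp.fin
  refine ⟨P0.map (LB k b).val.toLinearMap * Submodule.span k {1, z},
    insert (aeval z G) (S0.image fun x : LB k b => (x : K)), TGL2.isModel_PBz b z hP0,
    TGL2.fin_PBz b z hP0 hfin0 hfinK,
    ?_, ?_⟩
  · intro s hs
    rcases Finset.mem_insert.1 hs with rfl | hs
    · exact hGz
    · obtain ⟨x, hx, rfl⟩ := Finset.mem_image.1 hs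
      exact fun h0 => hS0 x hx (Subtype.ext h0)
  · intro Ω _ _ _ ι 𝕂 _ _ _ v n' h
    obtain ⟨hDER, hint⟩ := hu Ω ι
    have hset : ((insert (aeval z G) (S0.image fun x : LB k b => (x : K)) : Finset K) : Set K) =
        insert (aeval z G) ((fun x : LB k b => (x : K)) '' (S0 : Set (LB k b))) := by
      rw [Finset.coe_insert, Finset.coe_image]
    rw [hset]
    refine ind_at hd hp ι h hP0 (fun s hs => hS0 s hs) (hv Ω (i0 b ι) 𝕂 v n' h) (fun i => ?_) ?_
      hw0 hDER (fun a ha => ?_) hGZ fun a ha => ?_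
    · exact Finset.mem_coe.2 (Finset.mem_insert_of_mem (Finset.mem_union_right _
        (Finset.mem_image_of_mem _ (Finset.mem_univ i))))
    · exact Finset.mem_coe.2 (Finset.mem_insert_self _ _)
    · exact Finset.mem_coe.2 (Finset.mem_insert_of_mem (Finset.mem_union_left _ ha))
    · obtain ⟨h1, h2⟩ := hA4 a ha
      refine ⟨hZ a ha, hint a h1, ?_⟩
      rw [← map_inv₀]
      exact hint _ h2

end Pool.Agent.TGL
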