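import Pool.Agent.Lib.TGL_h18.SData

/-!
# TANK G, row IND: the global polynomials of the step

`f` a separable polynomial over `F`, `S` the additive group generated by `1` and the roots of `f`
in an algebraically closed field `Ω ⊇ F`: the polynomial `G = ∏ (X - s)` over `F` and the
coefficients of the minimal polynomials of the elements of `S` do not depend on `Ω`.
-/

set_option autoImplicit false

open Polynomial

namespace Pool.Agent.TGL18

universe u

/-- The roots of `f` in `Ω`. -/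
def Rts {F : Type u} [Field F] (f : F[X]) (Ω : Type u) [Field Ω] [Algebra F Ω] : Set Ω :=
  {a | aeval a f = 0}

section

variable {F : Type u} [Field F] {f : F[X]} {Ω : Type u} [Field Ω] [Algebra F Ω]

theorem Rts_finite (hf : f ≠ 0) : (Rts f Ω).Finite := by
  classical
  refine ((f.map (algebraMap F Ω)).roots.toFinset.finite_toSet).subset fun a ha => ?_
  have h0 : f.map (algebraMap F Ω) ≠ 0 := (Polynomial.map_ne_zero_iff (algebraMap F Ω).injective).2 hf
  simp only [Finset.mem_coe, Multiset.mem_toFinset, mem_roots h0, IsRoot.def, eval_map]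
  exact ha

theorem Rts_sep (hf : f.Separable) : ∀ a ∈ Rts f Ω, IsSeparable F a := fun a ha =>
  hf.of_dvd (minpoly.dvd F a ha)

theorem Rts_conj : ∀ a ∈ Rts f Ω, ∀ b : Ω, aeval b (minpoly F a) = 0 → b ∈ Rts f Ω := by
  intro a ha b hb
  obtain ⟨g, hg⟩ := minpoly.dvd F a ha
  change aeval b f = 0
  rw [hg, map_mul, hb, zero_mul]

/-- The roots in a bigger algebraically closed field. -/
theorem Rts_image {Ω' : Type u} [Field Ω'] [Algebra F Ω'] [IsAlgClosed Ω] (hf : f ≠ 0)
    (φ : Ω →ₐ[F] Ω') : φ '' (Rts f Ω) = Rts f Ω' := by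
  apply Set.Subset.antisymm
  · rintro _ ⟨a, ha, rfl⟩
    change aeval (φ a) f = 0
    rw [aeval_algHom_apply]
    exact (congrArg φ ha).trans (map_zero φ)
  · intro a ha
    have h0 : f.map (algebraMap F Ω) ≠ 0 :=
      (Polynomial.map_ne_zero_iff (algebraMap F Ω).injective).2 hf
    have hs := IsAlgClosed.splits (f.map (algebraMap F Ω))
    have h1 := Polynomial.Splits.eq_prod_roots hs
    have h2 : (f.map (algebraMap F Ω)).eval₂ (φ : Ω →+* Ω') a = 0 := by
      rw [eval₂_map]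
      have : (φ : Ω →+* Ω').comp (algebraMap F Ω) = algebraMap F Ω' := φ.comp_algebraMap
      rw [this]
      exact ha
    rw [h1, eval₂_mul, eval₂_C] at h2
    have hlc : (φ : Ω →+* Ω') (f.map (algebraMap F Ω)).leadingCoeff ≠ 0 := by
      rw [Ne, map_eq_zero]
      exact leadingCoeff_ne_zero.2 h0
    have h3 := (mul_eq_zero.1 h2).resolve_left hlc
    rw [← coe_eval₂RingHom, map_multiset_prod, Multiset.prod_eq_zero_iff, Multiset.map_map,
      Multiset.mem_map] at h3
    obtain ⟨c, hc, h4⟩ := h3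
    simp only [Function.comp_apply, coe_eval₂RingHom, eval₂_sub, eval₂_X, eval₂_C, sub_eq_zero]
      at h4
    refine ⟨c, ?_, h4.symm⟩
    have h5 := isRoot_of_mem_roots hc
    rw [IsRoot.def, eval_map] at h5
    exact h5

end

/-- **The global polynomials.** -/
theorem exists_SG {F : Type u} [Field F] (p : ℕ) [Fact p.Prime] [CharP F p] {f : F[X]}
    (hf : f.Separable) : ∃ (G : F[X]) (Zm : Finset F), (∀ a ∈ Zm, a ≠ 0) ∧
      ∀ (Ω : Type u) [Field Ω] [Algebra F Ω] [IsAlgClosed Ω] (T : Finset Ω),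
        (T : Set Ω) = Sgr (Rts f Ω) → G.map (algebraMap F Ω) = FS T ∧
          ∀ s ∈ Sgr (Rts f Ω), s ≠ 0 → ∃ P : F[X], P.Monic ∧ aeval s P = 0 ∧ P.coeff 0 ≠ 0 ∧
            ∀ i, P.coeff i = 0 ∨ P.coeff i ∈ Zm := by
  classical
  let Ω₀ : Type u := AlgebraicClosure F
  have hchar : CharP Ω₀ p := charP_of_injective_algebraMap (algebraMap F Ω₀).injective p
  have hf0 : f ≠ 0 := hf.ne_zero
  have hfin : (Sgr (Rts f Ω₀) : Set Ω₀).Finite := Sgr_finite p (Rts_finite hf0)
  let T₀ : Finset Ω₀ := hfin.toFinset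
  have hT₀ : (T₀ : Set Ω₀) = Sgr (Rts f Ω₀) := hfin.coe_toFinset
  obtain ⟨G, hG⟩ := exists_FS (L0 := F) (Rts_sep hf) Rts_conj hT₀
  let Zm : Finset F := (T₀.biUnion fun s => (minpoly F s).coeffs).filter (· ≠ 0)
  refine ⟨G, Zm, fun a ha => (Finset.mem_filter.1 ha).2, ?_⟩
  intro Ω _ _ _ T hT
  let φ : Ω₀ →ₐ[F] Ω := IsAlgClosed.lift
  have himg : φ '' (Rts f Ω₀) = Rts f Ω := Rts_image hf0 φ
  have hS : (Sgr (Rts f Ω₀)).map ((φ : Ω₀ →+* Ω) : Ω₀ →+ Ω) = Sgr (Rts f Ω) := by
    rw [sgr_image, ← himg]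
    rfl
  have hTim : T = T₀.image φ := by
    apply Finset.coe_injective
    rw [hT, ← hS, Finset.coe_image, hT₀]
    rfl
  constructor
  · have h1 : G.map (algebraMap F Ω) = (G.map (algebraMap F Ω₀)).map (φ : Ω₀ →+* Ω) := by
      rw [Polynomial.map_map]
      congr 1
      exact φ.comp_algebraMap.symm
    rw [h1, hG, FS, FS, Polynomial.map_prod, hTim,
      Finset.prod_image (g := φ) (fun a _ b _ h => (φ : Ω₀ →+* Ω).injective h)]
    refine Finset.prod_congr rfl fun s _ => ?_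
    rw [Polynomial.map_sub, Polynomial.map_X, Polynomial.map_C]
    rfl
  · intro s hs hs0
    rw [← hS] at hs
    obtain ⟨s₀, hs₀, rfl⟩ := hs
    have hs₀T : s₀ ∈ T₀ := by
      have : s₀ ∈ (T₀ : Set Ω₀) := by rw [hT₀]; exact hs₀
      exact this
    have hs₀0 : s₀ ≠ 0 := by
      rintro rfl
      exact hs0 (map_zero φ)
    have hint : IsIntegral F s₀ := Algebra.IsIntegral.isIntegral s₀
    refine ⟨minpoly F s₀, minpoly.monic hint, ?_, minpoly.coeff_zero_ne_zero hint hs₀0, fun i => ?_⟩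
    · change aeval (φ s₀) (minpoly F s₀) = 0
      rw [aeval_algHom_apply, minpoly.aeval, map_zero]
    · by_cases hi : (minpoly F s₀).coeff i = 0
      · exact Or.inl hi
      · refine Or.inr (Finset.mem_filter.2 ⟨Finset.mem_biUnion.2 ⟨s₀, hs₀T, ?_⟩, hi⟩)
        exact Polynomial.coeff_mem_coeffs hi

end Pool.Agent.TGL18
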