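import Pool.Agent.Lib.TGL.Bk
import Pool.Agent.Lib.TGL.Unit_h5
import Pool.Agent.Lib.TGL_h18.SGlob

/-!
# TANK G, row IND: local rings of `P^m` inside limit rings, monomials
-/

set_option autoImplicit false

open Polynomial

namespace Pool.Agent.TGL18

open Pool.Agent.TAO (OVal VPos Ctx0)
open Pool.Agent.LU1 (FracIs fixO)
open Pool.Agent.ALLO (locv icl ICl decP)
open Pool.Agent.TGL

universe u w

section

variable {k Ω : Type u} [Field k] [Field Ω] [Algebra k Ω]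
  {𝕂 : Type w} [Field 𝕂] [LinearOrder 𝕂] [IsStrictOrderedRing 𝕂] {v : OVal 𝕂 Ω} {r D n : ℕ}

/-- The quotient of two monomials of nonnegative value is in the ring. -/
theorem mono_div_mem (B : LF k v r D) {a b : Ω} (ha : B.Mono a) (hb : B.Mono b)
    (h : v b ≤ v a) : a / b ∈ B.R := by
  obtain ⟨ha0, ha1, ha2⟩ := ha
  obtain ⟨hb0, hb1, hb2⟩ := hb
  have h1 : a / b = B.χ (v a - v b) * (a / B.χ (v a)) * (b / B.χ (v b))⁻¹ := by
    rw [B.χ_sub ha1 hb1]
    have h3 := B.χ_ne _ ha1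
    have h4 := B.χ_ne _ hb1
    field_simp
  rw [h1]
  exact B.R.mul_mem (B.R.mul_mem (B.χ_mem _ (B.Γ.sub_mem ha1 hb1) (sub_nonneg.2 h)) ha2.1)
    (B.loc _ hb2.1 hb2.2.1 hb2.2.2)

theorem mono_one (B : LF k v r D) : B.Mono 1 := by
  refine ⟨one_ne_zero, by rw [v.map_one]; exact B.Γ.zero_mem, ?_⟩
  rw [v.map_one, B.χ_zero, div_one]
  exact ⟨B.R.one_mem, one_ne_zero, v.map_one⟩

/-- The local ring of the model spanned by finitely many elements with comparable ratios. -/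
theorem lim_le_of_cmp (htriv : ∀ c : k, c ≠ 0 → v (algebraMap k Ω c) = 0) {T : Subalgebra k Ω}
    (hT : ∀ f ∈ T, v.Ge 0 f) (hloc : ∀ f ∈ T, f ≠ 0 → v f = 0 → f⁻¹ ∈ T) {X : Set Ω}
    (hfin : X.Finite)
    (hX : ∀ a ∈ X, ∀ b ∈ X, a ≠ 0 → b ≠ 0 → a / b ∈ T ∨ b / a ∈ T) :
    Lim v (Submodule.span k X) ∅ ≤ T := by
  refine Lim_le hloc (fun f g hf hg => ?_) fun m hm _ => ?_
  · rw [← hfin.coe_toFinset] at hf hg
    refine div_mem_of_cmp htriv hT hloc (X := hfin.toFinset) (fun a ha b hb => ?_) hf hg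
    rw [Set.Finite.mem_toFinset] at ha hb
    exact hX a ha b hb
  · have h1 : m = 1 := by
      have h2 : {u : Ωˣ | (u : Ω) ∈ (∅ : Set Ω)} = ∅ := by
        ext u
        simp
      rw [Mo, h2, Subgroup.closure_empty, Subgroup.mem_bot] at hm
      exact hm
    rw [h1, Units.val_one]
    exact Subalgebra.one_mem _

/-- `R_B ≤ R₀`. -/
theorem lim_PB_le (htriv : ∀ c : k, c ≠ 0 → v (algebraMap k Ω c) = 0) (B : LF k v r D) {m : ℕ}
    {b : Fin m → Ω} (hb : ∀ i, B.Mono (b i)) :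
    Lim v (Submodule.span k (insert 1 (Set.range b))) ∅ ≤ B.R := by
  have hm : ∀ a ∈ insert 1 (Set.range b), B.Mono a := by
    rintro a (rfl | ⟨i, rfl⟩)
    · exact mono_one B
    · exact hb i
  refine lim_le_of_cmp htriv B.nonneg B.loc ((Set.finite_range b).insert 1) ?_
  intro a ha b hb _ _
  rcases le_total (v b) (v a) with h | h
  · exact Or.inl (mono_div_mem B (hm a ha) (hm b hb) h)
  · exact Or.inr (mono_div_mem B (hm b hb) (hm a ha) h)

/-- Elements which are values of monomials in a set. -/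
def MoE (S : Set Ω) (x : Ω) : Prop := ∃ m ∈ Mo S, (m : Ω) = x

theorem MoE.ne {S : Set Ω} {x : Ω} (h : MoE S x) : x ≠ 0 := by
  obtain ⟨m, -, rfl⟩ := h
  exact m.ne_zero

theorem MoE.mul {S : Set Ω} {x y : Ω} (h : MoE S x) (h' : MoE S y) : MoE S (x * y) := by
  obtain ⟨m, hm, rfl⟩ := h
  obtain ⟨m', hm', rfl⟩ := h'
  exact ⟨m * m', (Mo S).mul_mem hm hm', Units.val_mul _ _⟩

theorem MoE.inv {S : Set Ω} {x : Ω} (h : MoE S x) : MoE S x⁻¹ := by
  obtain ⟨m, hm, rfl⟩ := h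
  exact ⟨m⁻¹, (Mo S).inv_mem hm, Units.val_inv_eq_inv_val m⟩

theorem MoE.div {S : Set Ω} {x y : Ω} (h : MoE S x) (h' : MoE S y) : MoE S (x / y) := by
  rw [div_eq_mul_inv]
  exact h.mul h'.inv

theorem MoE.one {S : Set Ω} : MoE S (1 : Ω) := ⟨1, (Mo S).one_mem, Units.val_one⟩

theorem MoE.of_mem {S : Set Ω} {x : Ω} (hx : x ≠ 0) (h : x ∈ S) : MoE S x :=
  ⟨Units.mk0 x hx, Subgroup.subset_closure h, rfl⟩

theorem MoE.multiset_prod {S : Set Ω} (s : Multiset Ω) (h : ∀ x ∈ s, MoE S x) :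
    MoE S s.prod := by
  induction s using Multiset.induction_on with
  | empty => rw [Multiset.prod_zero]; exact MoE.one
  | cons a s ih =>
    rw [Multiset.prod_cons]
    exact (h a (Multiset.mem_cons_self a s)).mul (ih fun x hx => h x (Multiset.mem_cons_of_mem hx))

/-- The value of a monic polynomial with roots in `S` is a monomial in the `z - s`. -/
theorem MoE.eval_monic [IsAlgClosed Ω] {S : AddSubgroup Ω} {M : Set Ω} {z : Ω}
    (hM : ∀ s ∈ S, z - s ∈ M) (hz : ∀ s ∈ S, z - s ≠ 0) {P : Polynomial Ω} (hP : P.Monic)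
    (hr : ∀ a, P.eval a = 0 → a ∈ S) : MoE M (P.eval z) := by
  have hs := IsAlgClosed.splits P
  have h1 := hs.eq_prod_roots_of_monic hP
  rw [h1, eval_multiset_prod, Multiset.map_map]
  refine MoE.multiset_prod _ fun x hx => ?_
  obtain ⟨a, ha, rfl⟩ := Multiset.mem_map.1 hx
  have ha' : a ∈ S := hr a (isRoot_of_mem_roots ha)
  simp only [Function.comp_apply, eval_sub, eval_X, eval_C]
  exact MoE.of_mem (hz a ha') (hM a ha')

/-- `F(z)` in terms of the polynomial. -/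
theorem Fz_eq {S : AddSubgroup Ω} {T : Finset Ω} (hT : (T : Set Ω) = S) (z : Ω) :
    Fz S z = (FS T).eval z := by
  rw [Fz, FS, eval_prod]
  have h1 : ∀ s, s ∈ S ↔ s ∈ T := fun s => by
    rw [← Finset.mem_coe, hT]
    rfl
  have h2 : (∏ᶠ s ∈ S, (z - s)) = ∏ᶠ s ∈ (T : Set Ω), (z - s) :=
    finprod_congr fun s => by
      have h3 : (s ∈ S) = (s ∈ (T : Set Ω)) := propext (h1 s)
      simp only [h3]
  rw [h2, finprod_mem_coe_finset]
  exact Finset.prod_congr rfl fun s _ => by rw [eval_sub, eval_X, eval_C]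

end

end Pool.Agent.TGL18
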