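import Pool.Agent.Lib.TGL_h2.IndB

/-!
# TANK G, row IND: the coordinates `z, b`
-/

set_option autoImplicit false

open Polynomial

namespace Pool.Agent.TGL18

open Pool.Agent.LU1 (FracIs fixO)
open Pool.Agent.TGL (FZ)
open Pool.Agent.TG (LB KB)
open Pool.Agent.TGBh66 (PR)

universe u

section

variable {k K Ω : Type u} [Field k] [Field K] [Algebra k K] [Field Ω] [Algebra k Ω]
  (ι : K →ₐ[k] Ω) {m : ℕ} {b : Fin m → K} {z : K}

theorem exists_galK [IsAlgClosed Ω] [hfin : FiniteDimensional (KB k b z) K]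
    [hsep : Algebra.IsSeparable (KB k b z) K] {F : IntermediateField k Ω}
    (hF : F = (KB k b z).map ι) : ∃ (N : IntermediateField F Ω), FiniteDimensional F N ∧
      IsGalois F N ∧ ∃ H : Subgroup (N ≃ₐ[F] N), fixO F N H = ι.fieldRange := by
  subst hF
  obtain ⟨N, h1, h2, -, H, h3, -⟩ := TGL2.exists_gal' ι b z hfin hsep
  exact ⟨N, h1, h2, H, h3⟩

theorem range_eq (E : IntermediateField k K) : (ι.comp E.val).fieldRange = E.map ι := by
  ext x
  constructor
  · rintro ⟨a, rfl⟩
    exact ⟨a, a.2, rfl⟩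
  · rintro ⟨a, ha, rfl⟩
    exact ⟨⟨a, ha⟩, rfl⟩

omit [Field K] [Algebra k K] in
theorem range_snoc_eq (b : Fin m → K) (z : K) :
    Set.range (Fin.cons z b : Fin (m + 1) → K) = Set.range (Fin.snoc b z : Fin (m + 1) → K) := by
  rw [TGL2.range_snoc, Fin.range_cons]

theorem ind_tt (hb : AlgebraicIndependent k b) (hz : Transcendental (LB k b) z) :
    AlgebraicIndependent k (fun j => ι ((Fin.cons z b : Fin (m + 1) → K) j)) := by
  have h1 := TG.algInd_tt hb hz
  have h2 : TG.tt b z ∘ (finSuccEquiv m) = (Fin.cons z b : Fin (m + 1) → K) := by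
    funext j
    refine Fin.cases ?_ (fun i => ?_) j
    · simp [TG.tt]
    · simp [TG.tt]
  have h3 := h1.comp (finSuccEquiv m) (finSuccEquiv m).injective
  rw [h2] at h3
  exact h3.map' ι.toRingHom.injective

theorem frac_tt : FracIs (PR k (fun j => ι ((Fin.cons z b : Fin (m + 1) → K) j)))
    ((KB k b z).map ι) := by
  have h1 := TGL2.fracIs_tt ι b z
  rw [TGL2.FZ_map] at h1
  have h2 : PR k (fun j => ι ((Fin.cons z b : Fin (m + 1) → K) j)) = PR k (TGL2.tt ι b z) := by
    have h3 : (Set.range fun j => ι ((Fin.cons z b : Fin (m + 1) → K) j)) =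
        Set.range (TGL2.tt ι b z) := by
      have h4 : Set.range (TGL2.tt ι b z) = ι '' Set.range (Fin.snoc b z : Fin (m + 1) → K) := by
        rw [← Set.range_comp]
        rfl
      rw [h4, ← range_snoc_eq, ← Set.range_comp]
      rfl
    rw [PR, PR, h3]
  rw [h2]
  exact h1

end

end Pool.Agent.TGL18
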