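import Pool.Agent.Lib.TGL.Tower
import Pool.Agent.Lib.TGL.UnitB_h5
import Pool.Agent.Lib.TGL.IntX_h5
import Pool.Agent.Lib.TGL.LastDef
import Pool.Agent.Lib.TGL_h85.Tower
import Pool.Agent.Lib.TGL_h18.SGlob

/-!
# TANK G, row IND: the data `SD` of the step from a limit frame of `L₀`
-/

set_option autoImplicit false

open Polynomial

namespace Pool.Agent.TGL18

open Pool.Agent.TAO (OVal VPos Ctx0)
open Pool.Agent.LU1 (FracIs fixO)
open Pool.Agent.ALLO (locv icl ICl decP)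
open Pool.Agent.TGL

universe u w

section

variable {k Ω : Type u} [Field k] [Field Ω] [Algebra k Ω]
  {𝕂 : Type w} [Field 𝕂] [LinearOrder 𝕂] [IsStrictOrderedRing 𝕂] {v : OVal 𝕂 Ω} {r D n : ℕ}

/-- The field `L = L₀(roots)`. -/
noncomputable abbrev LL (L₀ : IntermediateField k Ω) (f : L₀[X]) : IntermediateField L₀ Ω :=
  Lf L₀ (Rts f Ω)

variable {L₀ : IntermediateField k Ω} {f : L₀[X]}

theorem LL_finite (hf : f.Separable) : FiniteDimensional L₀ (LL L₀ f) :=
  finite_Lf (Rts_finite hf.ne_zero) fun a ha => (Rts_sep hf a ha).isIntegral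

theorem LL_galois [IsAlgClosed Ω] (hf : f.Separable) : IsGalois L₀ (LL L₀ f) :=
  isGalois_Lf (Rts_sep hf) Rts_conj

/-- `1` and the differences of the roots are in `S`. -/
theorem mk_sd {p : ℕ} [Fact p.Prime] [CharP Ω p] [IsAlgClosed k] [IsAlgClosed Ω]
    (h : Ctx0 k v n) (B₀ : LF k v r D) (hf : f.Separable) {PB : Submodule k Ω} {SB : Set Ω}
    (hPfg : PB.FG) (hPne : PB ≠ ⊥) (hPmem : ∀ g ∈ PB, g ∈ L₀)
    (hSmem : ∀ s ∈ SB, s ∈ L₀ ∧ s ≠ 0) (hfrac : FracIs B₀.R L₀)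
    (hring : B₀.R = ICl v (Lim v PB SB) L₀) (htors : B₀.Tors SB) (hlab : B₀.Lab SB)
    (htrd : Algebra.trdeg k L₀ = ((r + D : ℕ)))
    {z : Ω} (hz : Transcendental ((LL L₀ f).restrictScalars k) z)
    (hcoef : ∀ s ∈ Sgr (Rts f Ω), s ≠ 0 → ∃ P : L₀[X], P.Monic ∧ aeval s P = 0 ∧
      P.coeff 0 ≠ 0 ∧ ∀ i, P.coeff i = 0 ∨ B₀.Mono ((P.coeff i : L₀) : Ω))
    (horb : ∀ a : LL L₀ f, (a : Ω) ∈ Rts f Ω →
      (MulAction.orbit (decP v B₀.R L₀ (LL L₀ f)) a).ncard < p)
    (hcard : ¬ p ∣ Nat.card (decP v B₀.R L₀ (LL L₀ f))) :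
    ∃ B : LF k v r D, SD (v := v) p L₀ (LL L₀ f) z PB SB (Sgr (Rts f Ω)) B₀ B := by
  classical
  have hfd := LL_finite (L₀ := L₀) hf
  have hgal := LL_galois (L₀ := L₀) hf
  have hRfin : (Rts f Ω).Finite := Rts_finite hf.ne_zero
  have hfinS : (Sgr (Rts f Ω) : Set Ω).Finite := Sgr_finite p hRfin
  -- elements of `S`
  have hunI : ∀ s ∈ Sgr (Rts f Ω), s ≠ 0 → B₀.UnI s := by
    intro s hs hs0
    obtain ⟨P, hP, hPs, hP0, hPc⟩ := hcoef s hs hs0
    refine B₀.unI_of_root (P.map (algebraMap L₀ Ω)) (hP.map _) (fun i => ?_) ?_ ?_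
    · rw [coeff_map]
      exact (hPc i).imp (fun h0 => by rw [h0, map_zero]) id
    · rw [coeff_map]
      exact (_root_.map_ne_zero _).2 hP0
    · rw [eval_map]
      exact hPs
  have hLmem : ∀ s ∈ Sgr (Rts f Ω), s ∈ LL L₀ f := fun s hs => mem_Lf hs
  obtain ⟨B, hB, hext⟩ := tower h B₀ (L := LL L₀ f) hfrac htrd hRfin.toFinset
    (by rw [hRfin.coe_toFinset]; rfl)
    (by
      intro σ a ha
      rw [Set.Finite.mem_toFinset] at ha ⊢
      have h1 : aeval a f = 0 := by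
        apply Subtype.ext
        have h2 : ((aeval a f : LL L₀ f) : Ω) = aeval (a : Ω) f :=
          (IntermediateField.aeval_coe (LL L₀ f) _ _).symm
        rw [h2]; exact ha
      have h2 : aeval (σ a) f = 0 := by
        have h4 := aeval_algHom_apply (σ : LL L₀ f →ₐ[L₀] LL L₀ f) a f
        rw [h1, map_zero] at h4
        exact h4
      have h3 : ((aeval (σ a) f : LL L₀ f) : Ω) = aeval ((σ a : LL L₀ f) : Ω) f :=
        (IntermediateField.aeval_coe (LL L₀ f) _ _).symm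
      change aeval ((σ a : LL L₀ f) : Ω) f = 0
      rw [← h3, h2]; rfl)
    (by
      intro a ha
      rw [Set.Finite.mem_toFinset] at ha
      by_cases ha0 : a = 0
      · exact ⟨0, B₀.Γ.zero_mem, by rw [ha0, mul_zero]; exact isIntegral_zero⟩
      · exact (hunI a (mem_Sgr ha) ha0).2.1)
    (by
      intro a ha b hb hab
      rw [Set.Finite.mem_toFinset] at ha hb
      exact hunI _ ((Sgr (Rts f Ω)).sub_mem (mem_Sgr ha) (mem_Sgr hb)) (sub_ne_zero.2 hab))
    (by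
      intro a ha
      rw [Set.Finite.mem_toFinset] at ha
      exact horb a ha)
  refine ⟨B, ?_⟩
  have hle : L₀ ≤ (LL L₀ f).restrictScalars k := fun x hx => by
    rw [IntermediateField.mem_restrictScalars]
    exact (LL L₀ f).algebraMap_mem ⟨x, hx⟩
  have halg : ∀ g ∈ (LL L₀ f).restrictScalars k, IsAlgebraic L₀ g := fun g hg => by
    have h1 : IsAlgebraic L₀ (⟨g, hg⟩ : LL L₀ f) := Algebra.IsAlgebraic.isAlgebraic _
    exact h1.algebraMap (A := Ω)
  have hfracB : FracIs B.R ((LL L₀ f).restrictScalars k) := by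
    rw [hB]
    exact TGL85.frac_ICl hfrac hle halg
  have htrB : Algebra.trdeg k ((LL L₀ f).restrictScalars k) = ((r + D : ℕ)) := by
    rw [TGL85.trdeg_eq_of_alg hle halg, htrd]
  exact
    { PB_fg := hPfg
      PB_ne := hPne
      PB_mem := hPmem
      SB_mem := hSmem
      frac₀ := hfrac
      ring₀ := hring
      tors₀ := htors
      lab₀ := hlab
      trd := htrd
      ring := hB
      ext := hext
      tr := hz
      S_fin := hfinS
      S_one := one_mem_Sgr _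
      S_mem := hLmem
      S_gal := by
        intro σ a ha
        exact algHom_mem Rts_conj ((LL L₀ f).val.comp (σ : LL L₀ f →ₐ[L₀] LL L₀ f)) ha
      S_mono := by
        intro s hs hs0
        refine B.mono_of_unX h hfracB htrB ?_
        obtain ⟨-, ⟨γ, hγ, h1⟩, ⟨δ, hδ, h2⟩⟩ := hunI s hs hs0
        have hsL : s ∈ (LL L₀ f).restrictScalars k := hLmem s hs
        have hχL : ∀ γ ∈ B₀.Γ, B₀.χ γ ∈ (LL L₀ f).restrictScalars k := fun γ hγ => by
          rcases le_total 0 γ with h0 | h0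
          · exact hle (hfrac.1 _ (B₀.χ_mem γ hγ h0))
          · have h3 := hle (hfrac.1 _ (B₀.χ_mem _ (B₀.Γ.neg_mem hγ) (neg_nonneg.2 h0)))
            rw [B₀.χ_neg hγ] at h3
            have h4 := inv_mem h3
            rwa [inv_inv] at h4
        refine ⟨hs0, hext.inX le_rfl (A := B.R) ⟨γ, hγ, ?_⟩, hext.inX le_rfl (A := B.R) ⟨δ, hδ, ?_⟩⟩
        · rw [hB]
          exact icl_le_ICl v _ _ ⟨mul_mem (hχL γ hγ) hsL, h1⟩
        · rw [hB]
          exact icl_le_ICl v _ _ ⟨mul_mem (hχL δ hδ) (inv_mem hsL), h2⟩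
      card := hcard }

end

end Pool.Agent.TGL18
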