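import Pool.Agent.Lib.TGL_h18.IndA
import Pool.Agent.Lib.TGL_h18.MkSD
import Pool.Agent.Lib.TGL_h18.IndC
import Pool.Agent.Lib.TGL.DecProj
import Pool.Agent.Lib.TGL.LocalThm

/-!
# TANK G, row IND: the step at one valuation
-/

set_option autoImplicit false

open Polynomial

namespace Pool.Agent.TGL18

open Pool.Agent.TAO (OVal VPos Ctx0)
open Pool.Agent.LU1 (FracIs fixO)
open Pool.Agent.ALLO (locv icl ICl decP)
open Pool.Agent.TGL
open Pool.Agent.TG (LB KB Proj IsModel Fin')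
open Pool.Agent.TGBh66 (PR DER invS)

universe u

section

variable {k K Ω 𝕂 : Type u} [Field k] [Field K] [Field Ω] [Algebra k K] [Algebra k Ω]
  [Field 𝕂] [LinearOrder 𝕂] [IsStrictOrderedRing 𝕂] {m : ℕ} {b : Fin m → K} {z : K}

/-- The map `k(b) → Ω`. -/
noncomputable abbrev i0 (b : Fin m → K) (ι : K →ₐ[k] Ω) : LB k b →ₐ[k] Ω :=
  ι.comp (LB k b).val

/-- The polynomial over the image of `k(b)`. -/
noncomputable def fO (b : Fin m → K) (ι : K →ₐ[k] Ω) (f : (LB k b)[X]) :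
    Polynomial ((LB k b).map ι) :=
  f.map ((eqMap ι (F := (LB k b).map ι) rfl : (LB k b) ≃ₐ[k] ((LB k b).map ι)) :
    (LB k b) →+* ((LB k b).map ι))

theorem fO_aeval (ι : K →ₐ[k] Ω) (f : (LB k b)[X]) (x : Ω) :
    aeval x (fO b ι f) = f.eval₂ ((i0 b ι : LB k b →ₐ[k] Ω) : LB k b →+* Ω) x := by
  rw [fO, aeval_def, eval₂_map]
  rfl

theorem fO_sep (ι : K →ₐ[k] Ω) {f : (LB k b)[X]} (hf : f.Separable) : (fO b ι f).Separable :=
  hf.map

/-- The roots, over `k(b)` and over its image. -/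
theorem rts_eq (ι : K →ₐ[k] Ω) (f : (LB k b)[X]) :
    Rts (fO b ι f) Ω = {x : Ω | f.eval₂ ((i0 b ι : LB k b →ₐ[k] Ω) : LB k b →+* Ω) x = 0} := by
  ext x
  change aeval x (fO b ι f) = 0 ↔ _
  rw [fO_aeval]
  rfl

theorem b_mem (b : Fin m → K) (i : Fin m) : b i ∈ LB k b :=
  IntermediateField.subset_adjoin _ _ ⟨i, rfl⟩

/-- **The step at one valuation.** -/
theorem ind_at {p d : ℕ} [Fact p.Prime] [CharP k p] [IsAlgClosed k] [IsAlgClosed Ω] (hd : d < p)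
    {A₀ : Subalgebra k K} {f : (LB k b)[X]} {C : Finset K} (hp : Proj A₀ d b z f C)
    (ι : K →ₐ[k] Ω) {v : OVal 𝕂 Ω} {n : ℕ} (h : Ctx0 k v n)
    {P0 : Submodule k (LB k b)} {S0 : Set (LB k b)} (hP0 : IsModel P0) (hS0 : ∀ s ∈ S0, s ≠ 0)
    {Z0 : Set (LB k b)} (hat : AtV v m (i0 b ι) P0 S0 Z0)
    (hb : ∀ i, (⟨b i, b_mem b i⟩ : LB k b) ∈ Z0) {u : LB k b} (hu : u ∈ Z0)
    (hw0 : (u : K) * z * aeval z f ≠ 0)
    (hDER : DER k (fun j => ι ((Fin.cons z b : Fin (m + 1) → K) j))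
      (ι ((u : K) * z * aeval z f)) ι.fieldRange)
    {G : (LB k b)[X]} {Zm : Finset (LB k b)} (hZm : ∀ a ∈ Zm, a ∈ Z0)
    (hglob : ∀ (Ω : Type u) [Field Ω] [Algebra (LB k b) Ω] [IsAlgClosed Ω] (T : Finset Ω),
      (T : Set Ω) = Sgr (Rts f Ω) → G.map (algebraMap (LB k b) Ω) = FS T ∧
        ∀ s ∈ Sgr (Rts f Ω), s ≠ 0 → ∃ P : (LB k b)[X], P.Monic ∧ aeval s P = 0 ∧
          P.coeff 0 ≠ 0 ∧ ∀ i, P.coeff i = 0 ∨ P.coeff i ∈ Zm)
    {Z : Set K} (hZ : ∀ a ∈ Z, a ≠ 0 ∧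
      IsIntegral (invS (PR k (fun j => ι ((Fin.cons z b : Fin (m + 1) → K) j)))
        (Submonoid.powers (ι ((u : K) * z * aeval z f)))) (ι a) ∧
      IsIntegral (invS (PR k (fun j => ι ((Fin.cons z b : Fin (m + 1) → K) j)))
        (Submonoid.powers (ι ((u : K) * z * aeval z f)))) (ι a)⁻¹) :
    AtV v (m + 1) ι (P0.map (LB k b).val.toLinearMap * Submodule.span k {1, z})
      (insert (aeval z G) ((fun x : LB k b => (x : K)) '' S0)) Z := by
  classical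
  have hfinK := hp.fin
  have hsepK := hp.sep
  have hcharΩ : CharP Ω p := charP_of_injective_algebraMap (algebraMap k Ω).injective p
  obtain ⟨r, D, B₀, hrD, hR0, hfr0, htors0, hlab0, hZ0⟩ := hat
  -- the base field
  set L₀ : IntermediateField k Ω := (LB k b).map ι with hL₀
  have hrange : (i0 b ι).fieldRange = L₀ := range_eq ι (LB k b)
  rw [hrange] at hR0 hfr0
  have htrd : Algebra.trdeg k L₀ = ((r + D : ℕ)) := by
    rw [hL₀, TGL2.trdeg_map, TGL2.trdeg_LB b hp.ind, hrD]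
  set g : L₀[X] := fO b ι f with hg
  have hgsep : g.Separable := fO_sep ι hp.fsep
  have hfd := LL_finite (L₀ := L₀) hgsep
  have hgal := LL_galois (L₀ := L₀) hgsep
  -- monomials of the frame
  have hMZ : ∀ a ∈ Z0, B₀.Mono (i0 b ι a) := hZ0
  have hMb : ∀ i, B₀.Mono (ι (b i)) := fun i => hMZ _ (hb i)
  have hRB : Lim v (Submodule.span k (insert 1 (Set.range fun i => ι (b i)))) ∅ ≤ B₀.R :=
    lim_PB_le h.triv B₀ hMb
  have hroot : ∀ a : LL L₀ g, (a : Ω) ∈ Rts g Ω →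
      (f.map ((ι.comp (LB k b).val : (LB k b) →ₐ[k] Ω) : (LB k b) →+* Ω)).eval (a : Ω) = 0 := by
    intro a ha
    have h1 : (a : Ω) ∈ {x : Ω | f.eval₂ ((i0 b ι : LB k b →ₐ[k] Ω) : LB k b →+* Ω) x = 0} := by
      rw [← rts_eq]
      exact ha
    rw [eval_map]
    exact h1
  have horb : ∀ a : LL L₀ g, (a : Ω) ∈ Rts g Ω →
      (MulAction.orbit (decP v B₀.R L₀ (LL L₀ g)) a).ncard < p := fun a ha =>
    (proj_orbit_le hp h ι hL₀ (LL L₀ g) hRB hfr0.1 a (hroot a ha)).trans_lt hd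
  have hstab : ∀ σ : LL L₀ g ≃ₐ[L₀] LL L₀ g, ∀ a : LL L₀ g, (a : Ω) ∈ Rts g Ω →
      ((σ a : LL L₀ g) : Ω) ∈ Rts g Ω := by
    intro σ a ha
    have h1 : aeval a g = 0 := by
      apply Subtype.ext
      have h2 : ((aeval a g : LL L₀ g) : Ω) = aeval (a : Ω) g :=
        (IntermediateField.aeval_coe (LL L₀ g) _ _).symm
      rw [h2]; exact ha
    have h4 := aeval_algHom_apply (σ : LL L₀ g →ₐ[L₀] LL L₀ g) a g
    rw [h1, map_zero] at h4
    have h3 : ((aeval (σ a) g : LL L₀ g) : Ω) = aeval ((σ a : LL L₀ g) : Ω) g :=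
      (IntermediateField.aeval_coe (LL L₀ g) _ _).symm
    change aeval ((σ a : LL L₀ g) : Ω) g = 0
    have h5 : (aeval (σ a) g : LL L₀ g) = 0 := h4
    rw [← h3, h5]; rfl
  have hcard : ¬ p ∣ Nat.card (decP v B₀.R L₀ (LL L₀ g)) :=
    not_dvd_card_of_orbit (L := LL L₀ g) (Rt := Rts g Ω) rfl _ (fun σ _ a ha => hstab σ a ha) horb
  have hz : Transcendental ((LL L₀ g).restrictScalars k) (ι z) :=
    TGL2.transcendental_map ι b z hp.tr (LL L₀ g) inferInstance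
  -- the algebra structure of `Ω` over `k(b)`
  let algO : Algebra (LB k b) Ω := ((i0 b ι : LB k b →ₐ[k] Ω) : LB k b →+* Ω).toAlgebra
  have hrts : Rts f Ω = Rts g Ω := by
    rw [hg, rts_eq]
    rfl
  have hfinS : (Sgr (Rts g Ω) : Set Ω).Finite := Sgr_finite p (Rts_finite hgsep.ne_zero)
  have hT : (hfinS.toFinset : Set Ω) = Sgr (Rts f Ω) := by rw [hfinS.coe_toFinset, hrts]
  obtain ⟨hG, hcf⟩ := hglob Ω hfinS.toFinset hT
  have hcoef : ∀ s ∈ Sgr (Rts g Ω), s ≠ 0 → ∃ P : L₀[X], P.Monic ∧ aeval s P = 0 ∧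
      P.coeff 0 ≠ 0 ∧ ∀ i, P.coeff i = 0 ∨ B₀.Mono ((P.coeff i : L₀) : Ω) := by
    intro s hs hs0
    rw [← hrts] at hs
    obtain ⟨P, hP, hPs, hP0, hPc⟩ := hcf s hs hs0
    refine ⟨fO b ι P, hP.map _, ?_, ?_, fun i => ?_⟩
    · rw [fO_aeval]
      exact hPs
    · rw [fO, coeff_map]
      exact (_root_.map_ne_zero _).2 hP0
    · rcases hPc i with h1 | h1
      · left
        rw [fO, coeff_map, h1, map_zero]
      · right
        rw [fO, coeff_map]
        exact hMZ _ (hZm _ h1)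
  have hne0 : ∀ x : LB k b, x ≠ 0 → i0 b ι x ≠ 0 := fun x hx => (_root_.map_ne_zero (i0 b ι)).2 hx
  have hmem0 : ∀ x : LB k b, i0 b ι x ∈ L₀ := fun x => ⟨x, x.2, rfl⟩
  obtain ⟨B, sd⟩ := mk_sd (p := p) h B₀ hgsep (PB := P0.map (i0 b ι).toLinearMap)
    (SB := (i0 b ι) '' S0) (hP0.fg.map _)
    (by
      intro h0
      apply hP0.ne
      refine Submodule.map_injective_of_injective (f := (i0 b ι).toLinearMap)
        (i0 b ι).toRingHom.injective ?_
      rw [h0, Submodule.map_bot])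
    (by
      rintro x ⟨y, -, rfl⟩
      exact hmem0 y)
    (by
      rintro x ⟨y, hy, rfl⟩
      exact ⟨hmem0 y, hne0 y (hS0 y hy)⟩)
    hfr0 hR0 htors0 hlab0 htrd hz hcoef horb hcard
  -- the field `F`
  have hF : FZ L₀ (ι z) = (KB k b z).map ι := TGL2.FZ_map ι b z
  obtain ⟨N, hNfd, hNgal, H, hH⟩ := exists_galK (b := b) (z := z) ι hF
  -- the elements `z - s`
  set MM : Set Ω := {y | y ∈ L₀ ∧ B₀.Mono y} ∪ {x | ∃ s ∈ Sgr (Rts g Ω), x = ι z - s} with hMM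
  have hzs : ∀ s ∈ Sgr (Rts g Ω), ι z - s ≠ 0 := by
    intro s hs h0
    apply hz
    have h1 : ι z = s := sub_eq_zero.1 h0
    rw [h1]
    exact isAlgebraic_algebraMap (⟨s, mem_Lf (L0 := L₀) hs⟩ : (LL L₀ g).restrictScalars k)
  have hzsM : ∀ s ∈ Sgr (Rts g Ω), ι z - s ∈ MM := fun s hs => Or.inr ⟨s, hs, rfl⟩
  have hMz : MoE MM (ι z) := by
    have h1 := MoE.of_mem (hzs 0 (Sgr (Rts g Ω)).zero_mem) (hzsM 0 (Sgr (Rts g Ω)).zero_mem)
    rwa [sub_zero] at h1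
  have hM0 : ∀ x : LB k b, B₀.Mono (i0 b ι x) → MoE MM (i0 b ι x) := fun x hx =>
    MoE.of_mem hx.1 (Or.inl ⟨hmem0 x, hx⟩)
  have hMbb : ∀ i, MoE MM (ι (b i)) := fun i => hM0 ⟨b i, b_mem b i⟩ (hMb i)
  have hMw : MoE MM (ι ((u : K) * z * aeval z f)) := by
    rw [map_mul, map_mul]
    refine ((hM0 u (hMZ u hu)).mul hMz).mul ?_
    have h1 : ι (aeval z f) = (f.map ((i0 b ι : LB k b →ₐ[k] Ω) : LB k b →+* Ω)).eval (ι z) := by
      rw [eval_map, aeval_def]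
      exact Polynomial.hom_eval₂ f (algebraMap (LB k b) K) (ι : K →+* Ω) z
    rw [h1]
    refine MoE.eval_monic hzsM hzs (hp.monic.map _) fun a ha => mem_Sgr ?_
    rw [eval_map] at ha
    have h2 : a ∈ {x : Ω | f.eval₂ ((i0 b ι : LB k b →ₐ[k] Ω) : LB k b →+* Ω) x = 0} := ha
    rw [← rts_eq] at h2
    exact h2
  -- the local ring of `P^(m+1)`
  have hRP : Lim v (Submodule.span k (insert 1 (insert (ι z) (Set.range fun i => ι (b i))))) ∅ ≤
      R1 v L₀ (ι z) (P0.map (i0 b ι).toLinearMap) ((i0 b ι) '' S0) (Sgr (Rts g Ω)) := by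
    have hnr := sd.nring_R1 h
    have hMX : ∀ a ∈ insert 1 (insert (ι z) (Set.range fun i => ι (b i))),
        MoE MM a ∧ a ∈ FZ L₀ (ι z) := by
      rintro a (rfl | rfl | ⟨i, rfl⟩)
      · exact ⟨MoE.one, one_mem _⟩
      · exact ⟨hMz, mem_FZ L₀ (ι z)⟩
      · exact ⟨hMbb i, le_FZ L₀ (ι z) (hmem0 ⟨b i, b_mem b i⟩)⟩
    refine lim_le_of_cmp h.triv hnr.nonneg hnr.loc (((Set.finite_range _).insert _).insert _) ?_
    intro a ha b' hb' ha0 hb0
    obtain ⟨h1, h1'⟩ := hMX a ha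
    obtain ⟨h2, h2'⟩ := hMX b' hb'
    rcases le_total (v b') (v a) with hv | hv
    · left
      obtain ⟨x, hx, hxe⟩ := h1.div h2
      rw [← hxe]
      refine sd.mem_R1 h hx (by rw [hxe]; exact div_mem h1' h2') fun _ => ?_
      rw [hxe, v.map_div ha0 hb0]
      exact sub_nonneg.2 hv
    · right
      obtain ⟨x, hx, hxe⟩ := h2.div h1
      rw [← hxe]
      refine sd.mem_R1 h hx (by rw [hxe]; exact div_mem h2' h1') fun _ => ?_
      rw [hxe, v.map_div hb0 ha0]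
      exact sub_nonneg.2 hv
  have hRPF : ∀ x ∈ R1 v L₀ (ι z) (P0.map (i0 b ι).toLinearMap) ((i0 b ι) '' S0)
      (Sgr (Rts g Ω)), x ∈ FZ L₀ (ι z) := (sd.nring_R1 h).frac.1
  have ld : LastData' v p (m + 1) (FZ L₀ (ι z)) N H
      (R1 v L₀ (ι z) (P0.map (i0 b ι).toLinearMap) ((i0 b ι) '' S0) (Sgr (Rts g Ω)))
      (fun j => ι ((Fin.cons z b : Fin (m + 1) → K) j)) (ι ((u : K) * z * aeval z f))
      (ι '' Z) :=
    { idx := (proj_relIndex_le hp h ι hF N H hH hRP hRPF).trans_lt hd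
      ind := ind_tt ι hp.ind hp.tr
      frac := by rw [hF]; exact frac_tt ι
      w_mem := by
        rw [hF]
        refine ⟨(u : K) * z * aeval z f, ?_, rfl⟩
        have hle : LB k b ≤ KB k b z := IntermediateField.adjoin.mono _ _ _ (Set.subset_insert _ _)
        have hzK : z ∈ KB k b z := IntermediateField.subset_adjoin _ _ (Set.mem_insert _ _)
        refine mul_mem (mul_mem (hle u.2) hzK) ?_
        rw [aeval_eq_sum_range]
        refine sum_mem fun i _ => ?_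
        rw [Algebra.smul_def]
        exact mul_mem (hle (f.coeff i).2) (pow_mem hzK i)
      w_ne := (_root_.map_ne_zero ι).2 hw0
      der := by rw [hH]; exact hDER
      Z_unit := by
        rintro _ ⟨a, ha, rfl⟩
        obtain ⟨h0, h1, h2⟩ := hZ a ha
        exact ⟨by rw [hH]; exact ⟨a, rfl⟩, (_root_.map_ne_zero ι).2 h0, h1, h2⟩ }
  have htt : ∀ j : Fin (m + 1), ∃ x ∈ Mo MM, (x : Ω) = ι ((Fin.cons z b : Fin (m + 1) → K) j) := by
    intro j
    refine Fin.cases ?_ (fun i => ?_) j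
    · rw [Fin.cons_zero]
      exact hMz
    · rw [Fin.cons_succ]
      exact hMbb i
  obtain ⟨r', D', E, hrD', hER, hEfr, hEt, hEl, hEZ⟩ := local_theorem' h sd N H ld htt hMw
  -- translation
  have hFz : Fz (Sgr (Rts g Ω)) (ι z) = ι (aeval z G) := by
    rw [Fz_eq (T := hfinS.toFinset) hfinS.coe_toFinset, ← hG, eval_map]
    exact (Polynomial.hom_eval₂ G (algebraMap (LB k b) K) (ι : K →+* Ω) z).symm
  have hset : (i0 b ι) '' S0 ∪ {Fz (Sgr (Rts g Ω)) (ι z)} =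
      ι '' (insert (aeval z G) ((fun x : LB k b => (x : K)) '' S0)) := by
    rw [Set.image_insert_eq, Set.image_image, hFz, Set.union_singleton]
    rfl
  rw [hset] at hER hEt hEl
  rw [hH] at hER hEfr
  have hmul : P0.map (i0 b ι).toLinearMap * Submodule.span k {1, ι z} =
      (P0.map (LB k b).val.toLinearMap * Submodule.span k {1, z}).map ι.toLinearMap :=
    (TGL2.map_PBz ι b z P0).symm
  rw [hmul] at hER
  exact ⟨r', D', E, by rw [hrD', hrD], hER, hEfr, hEt, hEl, fun a ha => hEZ _ ⟨a, ha, rfl⟩⟩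

end

end Pool.Agent.TGL18
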