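import Mathlib
import Pool.Agent.Lib.TGE_h58.Basic

/-!
# TANK G, row IND: the finite additive group generated by the roots

`Ω` a field over the field `L0`, `Z` a finite set of elements of `Ω`, separable over `L0` and stable
under conjugation over `L0`; `S` the additive group generated by `1` and `Z`; `L = L0(Z)`.
-/

set_option autoImplicit false

open Polynomial

namespace Pool.Agent.TGL18

universe u

variable {Ω : Type u} [Field Ω]

/-- The additive group generated by `1` and `Z`. -/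
def Sgr (Z : Set Ω) : AddSubgroup Ω := AddSubgroup.closure (insert 1 Z)

theorem one_mem_Sgr (Z : Set Ω) : (1 : Ω) ∈ Sgr Z :=
  AddSubgroup.subset_closure (Set.mem_insert _ _)

theorem mem_Sgr {Z : Set Ω} {a : Ω} (ha : a ∈ Z) : a ∈ Sgr Z :=
  AddSubgroup.subset_closure (Set.mem_insert_of_mem _ ha)

theorem Sgr_finite (p : ℕ) [Fact p.Prime] [CharP Ω p] {Z : Set Ω} (hZ : Z.Finite) :
    (Sgr Z : Set Ω).Finite :=
  TGE58.finite_closure p _ (hZ.insert 1)

/-- `σ S = S` for every additive map with `σ 1 = 1` that permutes `Z`. -/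
theorem map_Sgr {Z : Set Ω} {A : Type*} [FunLike A Ω Ω] [RingHomClass A Ω Ω] (σ : A)
    (h : ∀ a ∈ Z, σ a ∈ Z) {s : Ω} (hs : s ∈ Sgr Z) : σ s ∈ Sgr Z := by
  unfold Sgr at hs
  induction hs using AddSubgroup.closure_induction with
  | mem x hx =>
    rcases hx with rfl | hx
    · rw [map_one]; exact one_mem_Sgr Z
    · exact mem_Sgr (h x hx)
  | zero => rw [map_zero]; exact (Sgr Z).zero_mem
  | add x y _ _ hx hy => rw [map_add]; exact (Sgr Z).add_mem hx hy
  | neg x _ hx => rw [map_neg]; exact (Sgr Z).neg_mem hx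

section Field

variable {L0 : Type u} [Field L0] [Algebra L0 Ω]

/-- The field generated by the roots. -/
def Lf (L0 : Type u) [Field L0] {Ω : Type u} [Field Ω] [Algebra L0 Ω] (Z : Set Ω) :
    IntermediateField L0 Ω :=
  IntermediateField.adjoin L0 Z

theorem mem_Lf {Z : Set Ω} {s : Ω} (hs : s ∈ Sgr Z) : s ∈ Lf L0 Z := by
  unfold Sgr at hs
  induction hs using AddSubgroup.closure_induction with
  | mem x hx =>
    rcases hx with rfl | hx
    · exact (Lf L0 Z).one_mem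
    · exact IntermediateField.subset_adjoin _ _ hx
  | zero => exact (Lf L0 Z).zero_mem
  | add x y _ _ hx hy => exact (Lf L0 Z).add_mem hx hy
  | neg x _ hx => exact (Lf L0 Z).neg_mem hx

theorem finite_Lf {Z : Set Ω} (hZ : Z.Finite) (hint : ∀ a ∈ Z, IsIntegral L0 a) :
    FiniteDimensional L0 (Lf L0 Z) := by
  have := hZ.to_subtype
  exact IntermediateField.finiteDimensional_adjoin hint

/-- `L / L0` is Galois. -/
theorem isGalois_Lf [IsAlgClosed Ω] {Z : Set Ω} (hsep : ∀ a ∈ Z, IsSeparable L0 a)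
    (hst : ∀ a ∈ Z, ∀ b : Ω, aeval b (minpoly L0 a) = 0 → b ∈ Z) : IsGalois L0 (Lf L0 Z) := by
  have hint : ∀ a ∈ Z, IsIntegral L0 a := fun a ha => (hsep a ha).isIntegral
  have hsepL : Algebra.IsSeparable L0 (Lf L0 Z) :=
    (IntermediateField.isSeparable_adjoin_iff_isSeparable L0 Ω).2 hsep
  have hnorm : Normal L0 (Lf L0 Z) := by
    rw [normal_iff]
    intro x
    refine ⟨Algebra.IsIntegral.isIntegral x, ?_⟩
    have h1 : ((minpoly L0 (x : Ω)).map (algebraMap L0 (Lf L0 Z))).Splits := by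
      refine IntermediateField.splits_of_mem_adjoin L0 Ω (S := Z) (fun a ha => ⟨hint a ha, ?_⟩) x.2
      refine IntermediateField.splits_of_splits (IsAlgClosed.splits _) fun b hb => ?_
      exact IntermediateField.subset_adjoin _ _ (hst a ha b (by
        rw [Polynomial.mem_rootSet] at hb
        exact hb.2))
    rwa [← IntermediateField.minpoly_eq x] at h1
  exact ⟨⟩

/-- The elements of `S` are separable over `L0`. -/
theorem separable_of_mem {Z : Set Ω} (hsep : ∀ a ∈ Z, IsSeparable L0 a) {s : Ω}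
    (hs : s ∈ Sgr Z) : IsSeparable L0 s := by
  have hsepL : Algebra.IsSeparable L0 (Lf L0 Z) :=
    (IntermediateField.isSeparable_adjoin_iff_isSeparable L0 Ω).2 hsep
  have h1 := Algebra.IsSeparable.isSeparable L0 (⟨s, mem_Lf hs⟩ : Lf L0 Z)
  rwa [IsSeparable, IntermediateField.minpoly_eq] at h1

/-- Embeddings of `L` map `S` to `S`. -/
theorem algHom_mem {Z : Set Ω} (hst : ∀ a ∈ Z, ∀ b : Ω, aeval b (minpoly L0 a) = 0 → b ∈ Z)
    (φ : Lf L0 Z →ₐ[L0] Ω) {s : Ω} (hs : s ∈ Sgr Z) : φ ⟨s, mem_Lf hs⟩ ∈ Sgr Z := by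
  suffices h : ∀ x : Lf L0 Z, (x : Ω) ∈ Sgr Z → φ x ∈ Sgr Z from h ⟨s, mem_Lf hs⟩ hs
  intro x hx
  obtain ⟨x, hxL⟩ := x
  change x ∈ Sgr Z at hx
  unfold Sgr at hx
  induction hx using AddSubgroup.closure_induction with
  | mem x hx =>
    rcases hx with rfl | hx
    · have h1 : (⟨1, hxL⟩ : Lf L0 Z) = 1 := rfl
      rw [h1, map_one]; exact one_mem_Sgr Z
    · refine mem_Sgr (hst x hx _ ?_)
      have h1 : aeval (⟨x, hxL⟩ : Lf L0 Z) (minpoly L0 x) = 0 := by
        apply Subtype.ext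
        have h2 : ((aeval (⟨x, hxL⟩ : Lf L0 Z) (minpoly L0 x) : Lf L0 Z) : Ω) =
            aeval x (minpoly L0 x) := (IntermediateField.aeval_coe (Lf L0 Z) _ _).symm
        rw [h2, minpoly.aeval]; rfl
      rw [aeval_algHom_apply, h1, map_zero]
  | zero =>
    have h1 : (⟨0, hxL⟩ : Lf L0 Z) = 0 := rfl
    rw [h1, map_zero]; exact (Sgr Z).zero_mem
  | add x y hx' hy' hx hy =>
    have h1 := hx (mem_Lf hx')
    have h2 := hy (mem_Lf hy')
    have h3 : (⟨x + y, hxL⟩ : Lf L0 Z) = ⟨x, mem_Lf hx'⟩ + ⟨y, mem_Lf hy'⟩ := rfl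
    rw [h3, map_add]; exact (Sgr Z).add_mem h1 h2
  | neg x hx' hx =>
    have h1 := hx (mem_Lf hx')
    have h3 : (⟨-x, hxL⟩ : Lf L0 Z) = -⟨x, mem_Lf hx'⟩ := rfl
    rw [h3, map_neg]; exact (Sgr Z).neg_mem h1

/-- Every conjugate of an element of `S` is in `S`. -/
theorem conj_mem [IsAlgClosed Ω] {Z : Set Ω} (hsep : ∀ a ∈ Z, IsSeparable L0 a)
    (hst : ∀ a ∈ Z, ∀ b : Ω, aeval b (minpoly L0 a) = 0 → b ∈ Z) {s b : Ω}
    (hs : s ∈ Sgr Z) (hb : aeval b (minpoly L0 s) = 0) : b ∈ Sgr Z := by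
  obtain ⟨φ, hφ⟩ := IntermediateField.exists_algHom_adjoin_of_splits_of_aeval (F := L0) (E := Ω)
    (K := Ω) (S := Z) (fun a ha => ⟨(hsep a ha).isIntegral, IsAlgClosed.splits _⟩)
    (mem_Lf hs) hb
  rw [← hφ]
  exact algHom_mem hst φ hs

/-- The polynomial `∏ (X - s)`, `s ∈ S`. -/
noncomputable def FS (T : Finset Ω) : Polynomial Ω := ∏ s ∈ T, (X - C s)

/-- The coefficients of `∏ (X - s)` are in `L0`. -/
theorem FS_coeff_mem [IsAlgClosed Ω] {Z : Set Ω} (hsep : ∀ a ∈ Z, IsSeparable L0 a)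
    (hst : ∀ a ∈ Z, ∀ b : Ω, aeval b (minpoly L0 a) = 0 → b ∈ Z) {T : Finset Ω}
    (hT : (T : Set Ω) = Sgr Z) (i : ℕ) : (FS T).coeff i ∈ (algebraMap L0 Ω).range := by
  have hgal := isGalois_Lf hsep hst
  have hZfin : Z.Finite := T.finite_toSet.subset fun a ha => by
    rw [hT]; exact mem_Sgr ha
  have hfd : FiniteDimensional L0 (Lf L0 Z) := finite_Lf hZfin fun a ha => (hsep a ha).isIntegral
  have hmem : ∀ s ∈ T, s ∈ Sgr Z := fun s hs => by
    have h1 : s ∈ (T : Set Ω) := hs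
    rw [hT] at h1
    exact h1
  -- the polynomial over `L`
  let P : (Lf L0 Z)[X] := ∏ s : T, (X - C (⟨s, mem_Lf (hmem s s.2)⟩ : Lf L0 Z))
  have hP : P.map (algebraMap (Lf L0 Z) Ω) = FS T := by
    rw [FS, Polynomial.map_prod, ← Finset.prod_coe_sort T]
    refine Finset.prod_congr rfl fun s _ => ?_
    rw [Polynomial.map_sub, Polynomial.map_X, Polynomial.map_C]
    rfl
  have hfix : ∀ σ : (Lf L0 Z) ≃ₐ[L0] (Lf L0 Z), P.map (σ : (Lf L0 Z) →+* (Lf L0 Z)) = P := by
    intro σ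
    have hσ : ∀ s : T, ((σ ⟨s, mem_Lf (hmem s s.2)⟩ : Lf L0 Z) : Ω) ∈ T := by
      intro s
      have h1 := algHom_mem hst ((Lf L0 Z).val.comp (σ : (Lf L0 Z) →ₐ[L0] (Lf L0 Z)))
        (hmem s s.2)
      have h2 : ((σ ⟨s, mem_Lf (hmem s s.2)⟩ : Lf L0 Z) : Ω) ∈ (T : Set Ω) := by
        rw [hT]; exact h1
      exact h2
    let e : T → T := fun s => ⟨_, hσ s⟩
    have he : Function.Injective e := by
      intro s t h
      have h1 := congrArg Subtype.val h
      have h2 : σ ⟨s, mem_Lf (hmem s s.2)⟩ = σ ⟨t, mem_Lf (hmem t t.2)⟩ := Subtype.ext h1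
      have h3 := congrArg Subtype.val (σ.injective h2)
      exact Subtype.ext h3
    have heb : Function.Bijective e := Finite.injective_iff_bijective.1 he
    rw [Polynomial.map_prod]
    refine Finset.prod_bijective e heb (by simp) fun s _ => ?_
    rw [Polynomial.map_sub, Polynomial.map_X, Polynomial.map_C]
    rfl
  have hc : P.coeff i ∈ (⊥ : IntermediateField L0 (Lf L0 Z)) := by
    rw [IsGalois.mem_bot_iff_fixed]
    intro σ
    have h1 := congrArg (fun Q => Q.coeff i) (hfix σ)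
    simp only [coeff_map] at h1
    exact h1
  obtain ⟨c, hc⟩ := IntermediateField.mem_bot.1 hc
  rw [← hP, coeff_map, ← hc]
  exact ⟨c, IsScalarTower.algebraMap_apply L0 (Lf L0 Z) Ω c⟩

/-- `∏ (X - s)` as a polynomial over `L0`. -/
theorem exists_FS [IsAlgClosed Ω] {Z : Set Ω} (hsep : ∀ a ∈ Z, IsSeparable L0 a)
    (hst : ∀ a ∈ Z, ∀ b : Ω, aeval b (minpoly L0 a) = 0 → b ∈ Z) {T : Finset Ω}
    (hT : (T : Set Ω) = Sgr Z) : ∃ G : L0[X], G.map (algebraMap L0 Ω) = FS T := by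
  have h1 : FS T ∈ Polynomial.lifts (algebraMap L0 Ω) := by
    rw [Polynomial.lifts_iff_coeff_lifts]
    exact FS_coeff_mem hsep hst hT
  obtain ⟨G, hG⟩ := (Polynomial.mem_lifts _).1 h1
  exact ⟨G, hG⟩

theorem sgr_image {Ω' : Type u} [Field Ω'] (φ : Ω →+* Ω') (Z : Set Ω) :
    (Sgr Z).map (φ : Ω →+ Ω') = Sgr (φ '' Z) := by
  rw [Sgr, Sgr, AddMonoidHom.map_closure, Set.image_insert_eq]
  congr 2
  exact map_one φ

end Field

end Pool.Agent.TGL18
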